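import Pool.Agent.Helper5.KPA.StD

/-!
# Project KP (MP_26be5b_ag), chapter A, module AFG: finite generation over the smaller polynomial ring
-/

set_option autoImplicit false

namespace Pool.Agent.Helper80.KPA

open Pool.Agent.Helper5.KPA Pool.Agent.Helper52.KP MvPolynomial

section

variable {s : ℕ} {V : Type} [AddCommGroup V] [Module ℂ V]

/-- monomials raise the degree -/
theorem afg_mono (ι : MvPolynomial (Fin s) ℂ →ₐ[ℂ] Module.End ℂ V) (M : ℕ → Submodule ℂ V)
    (hact : ∀ k i, ∀ x ∈ M k, ι (X i) x ∈ M (k + 1)) (α : Fin s →₀ ℕ) :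
    ∀ k, ∀ x ∈ M k, ι (monomial α 1) x ∈ M (k + α.degree) := by
  induction α using Finsupp.induction_linear with
  | zero =>
    intro k x hx
    simpa using hx
  | add α β ha hb =>
    intro k x hx
    have h1 : monomial (α + β) (1 : ℂ) = monomial α 1 * monomial β 1 := by
      rw [monomial_mul, one_mul]
    rw [h1, map_mul, Module.End.mul_apply, Finsupp.degree.map_add, add_comm α.degree, ← add_assoc]
    exact ha _ _ (hb _ _ hx)
  | single i n =>
    intro k x hx
    rw [Finsupp.degree_single]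
    induction n with
    | zero => simpa using hx
    | succ n ih =>
      have h1 : monomial (Finsupp.single i (n + 1)) (1 : ℂ) = X i * monomial (Finsupp.single i n) 1 := by
        rw [X, monomial_mul, one_mul, add_comm n 1, Finsupp.single_add]
      rw [h1, map_mul, Module.End.mul_apply, ← add_assoc]
      exact hact _ _ _ ih

/-- homogeneous polynomials raise the degree -/
theorem afg_hom (ι : MvPolynomial (Fin s) ℂ →ₐ[ℂ] Module.End ℂ V) (M : ℕ → Submodule ℂ V)
    (hact : ∀ k i, ∀ x ∈ M k, ι (X i) x ∈ M (k + 1)) (d : ℕ) (p : MvPolynomial (Fin s) ℂ)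
    (hp : p ∈ homogeneousSubmodule (Fin s) ℂ d) (k : ℕ) (x : V) (hx : x ∈ M k) :
    ι p x ∈ M (k + d) := by
  rw [mem_homogeneousSubmodule] at hp
  rw [p.as_sum, map_sum, LinearMap.sum_apply]
  apply Submodule.sum_mem
  intro α hα
  have h1 : α.degree = d := by
    by_contra hne
    exact (mem_support_iff.1 hα) (hp.coeff_eq_zero hne)
  have h2 : monomial α (coeff α p) = (coeff α p) • monomial α (1 : ℂ) := by
    rw [smul_monomial, smul_eq_mul, mul_one]
  rw [h2, map_smul, LinearMap.smul_apply, ← h1]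
  exact (M _).smul_mem _ (afg_mono ι M hact α k x hx)

end

theorem afg_hp {s : ℕ} (d : ℕ) : hp s (d : ℤ) = homogeneousSubmodule (Fin s) ℂ d := by
  rw [hp, if_pos (Int.natCast_nonneg d), Int.toNat_natCast]

/-- a homogeneous polynomial without `X_0^δ` is in the ideal of the other variables -/
theorem afg_dec {e : ℕ} (δ : ℕ) (g : MvPolynomial (Fin (e + 1)) ℂ)
    (hg : g ∈ homogeneousSubmodule (Fin (e + 1)) ℂ δ) (h0 : coeff (Finsupp.single 0 δ) g = 0) :
    ∃ q : Fin e → MvPolynomial (Fin (e + 1)) ℂ, (∀ i, q i ∈ hp (e + 1) ((δ : ℤ) - 1)) ∧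
      g = ∑ i, X (Fin.succ i) * q i := by
  rw [mem_homogeneousSubmodule] at hg
  have key : ∀ α ∈ g.support, ∃ q : Fin e → MvPolynomial (Fin (e + 1)) ℂ,
      (∀ i, q i ∈ hp (e + 1) ((δ : ℤ) - 1)) ∧
      monomial α (coeff α g) = ∑ i, X (Fin.succ i) * q i := by
    intro α hα
    have hc := mem_support_iff.1 hα
    have h1 : α.degree = δ := by
      by_contra hne
      exact hc (hg.coeff_eq_zero hne)
    have h2 : ∃ i : Fin e, α (Fin.succ i) ≠ 0 := by
      by_contra hcon
      push Not at hcon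
      apply hc
      have : α = Finsupp.single 0 δ := by
        have h3 : α 0 = δ := by
          rw [← h1, Finsupp.degree_eq_sum, Fin.sum_univ_succ]
          simp [hcon]
        ext j
        refine Fin.cases ?_ (fun i => ?_) j
        · simp [h3]
        · rw [hcon i, Finsupp.single_apply, if_neg (Fin.succ_ne_zero i).symm]
      rw [this, h0]
    obtain ⟨i, hi⟩ := h2
    have h4 : α = Finsupp.single (Fin.succ i) 1 + (α - Finsupp.single (Fin.succ i) 1) := by
      rw [add_tsub_cancel_of_le]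
      intro j
      rw [Finsupp.single_apply]
      split_ifs with h
      · rw [← h]; omega
      · exact Nat.zero_le _
    set β := α - Finsupp.single (Fin.succ i) 1 with hβ
    have h5 : β.degree + 1 = δ := by
      rw [← h1, h4, Finsupp.degree.map_add, Finsupp.degree_single, add_comm]
    refine ⟨Pi.single i (monomial β (coeff α g)), fun j => ?_, ?_⟩
    · by_cases hj : j = i
      · subst hj
        rw [Pi.single_eq_same]
        have h6 : (δ : ℤ) - 1 = (β.degree : ℤ) := by rw [← h5]; push_cast; ring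
        rw [h6, afg_hp, mem_homogeneousSubmodule]
        exact isHomogeneous_monomial _ rfl
      · rw [Pi.single_eq_of_ne hj]
        exact Submodule.zero_mem _
    · rw [Finset.sum_eq_single i]
      · rw [Pi.single_eq_same, X, monomial_mul, one_mul, ← h4]
      · intro j _ hj
        rw [Pi.single_eq_of_ne hj, mul_zero]
      · intro h
        exact absurd (Finset.mem_univ i) h
  choose! q hq1 hq2 using key
  refine ⟨fun i => ∑ α ∈ g.support, q α i, fun i => ?_, ?_⟩
  · exact Submodule.sum_mem _ fun α hα => hq1 α hα i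
  · conv_lhs => rw [g.as_sum]
    simp_rw [Finset.mul_sum]
    rw [Finset.sum_comm]
    exact Finset.sum_congr rfl hq2

theorem hAFG : StAFG := by
  intro e δ V _ _ ι M' M f hGr hFg hle hM' hMo hf
  have hlow : ∀ i, low ι (X i) = ι (X (Fin.succ i)) := by
    intro i
    rw [low, AlgHom.comp_apply, rename_X]
  refine ⟨⟨hGr.ind, fun k i x hx => ?_, hGr.fd⟩, ⟨hle, fun k i x hx => ?_, ?_⟩⟩
  · rw [hlow]; exact hGr.act _ _ _ hx
  · rw [hlow]; exact hM' _ _ _ hx
  obtain ⟨D, hD⟩ := hFg.fg
  have hD' : ∀ k, D ≤ k → ∀ x ∈ M (k + 1), ∃ y : Fin (e + 1) → V, (∀ i, y i ∈ M k) ∧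
      x = ∑ i, ι (X i) (y i) := by
    intro k hk x hx
    obtain ⟨y, hy, h⟩ := hD k hk x hx
    refine ⟨y, hy, ?_⟩
    exact sub_eq_zero.1 ((Submodule.mem_bot ℂ).1 h)
  have hP : ∀ j, ∀ x ∈ M (D + j + 1), ∃ y ∈ M D, ∃ z : Fin e → V, (∀ i, z i ∈ M (D + j)) ∧
      x = ι (X 0 ^ (j + 1)) y + ∑ i, ι (X (Fin.succ i)) (z i) := by
    intro j
    induction j with
    | zero =>
      intro x hx
      obtain ⟨y, hy, h⟩ := hD' D le_rfl x hx
      refine ⟨y 0, hy 0, fun i => y (Fin.succ i), fun i => hy _, ?_⟩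
      rw [h, Fin.sum_univ_succ, zero_add, pow_one]
    | succ j ih =>
      intro x hx
      obtain ⟨y, hy, h⟩ := hD' (D + j + 1) (by omega) x hx
      obtain ⟨y', hy', z, hz, h'⟩ := ih (y 0) (hy 0)
      refine ⟨y', hy', fun i => ι (X 0) (z i) + y (Fin.succ i), fun i => ?_, ?_⟩
      · exact (M _).add_mem (hGr.act _ _ _ (hz i)) (hy _)
      · rw [h, Fin.sum_univ_succ, h', map_add, map_sum]
        simp_rw [map_add, Finset.sum_add_distrib]
        rw [← Module.End.mul_apply, ← map_mul, ← pow_succ', add_assoc]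
        congr 2
        apply Finset.sum_congr rfl
        intro i _
        rw [← Module.End.mul_apply, ← map_mul, ← Module.End.mul_apply, ← map_mul, mul_comm]
  obtain ⟨hf1, hf2⟩ := hMo
  rw [afg_hp] at hf1
  obtain ⟨q, hq, hfq⟩ := afg_dec δ (f - X 0 ^ δ) (Submodule.sub_mem _ hf1 (by
      rw [mem_homogeneousSubmodule]
      exact isHomogeneous_X_pow _ _)) (by
      rw [coeff_sub, hf2, X_pow_eq_monomial, coeff_monomial, if_pos rfl, sub_self])
  have hact' : ∀ i, ∀ b : ℕ, ∀ x ∈ M (D + b + 1), ι (q i) x ∈ M (D + δ + b) := by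
    intro i b x hx
    rcases Nat.eq_zero_or_pos δ with h0 | h0
    · have h1 := hq i
      rw [h0, hp, if_neg (by norm_num)] at h1
      rw [(Submodule.mem_bot ℂ).1 h1, map_zero, LinearMap.zero_apply]
      exact Submodule.zero_mem _
    · have h1 := hq i
      have h2 : (δ : ℤ) - 1 = ((δ - 1 : ℕ) : ℤ) := by
        rw [Nat.cast_sub h0]; norm_num
      rw [h2, afg_hp] at h1
      have h3 := afg_hom ι M hGr.act (δ - 1) (q i) h1 _ x hx
      have h4 : D + b + 1 + (δ - 1) = D + δ + b := by omega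
      rwa [h4] at h3
  refine ⟨D + δ, fun k hk x hx => ?_⟩
  obtain ⟨b, rfl⟩ := Nat.exists_eq_add_of_le hk
  have e1 : D + δ + b + 1 = D + (δ + b) + 1 := by ring
  obtain ⟨y, hy, z, hz, h⟩ := hP (δ + b) x (by rw [← e1]; exact hx)
  have hy1 : ι (X 0 ^ (b + 1)) y ∈ M (D + b + 1) := by
    have h3 := afg_hom ι M hGr.act (b + 1) (X 0 ^ (b + 1)) (by
      rw [mem_homogeneousSubmodule]
      exact isHomogeneous_X_pow _ _) _ y hy
    rwa [← add_assoc] at h3
  refine ⟨fun i => z i - ι (q i) (ι (X 0 ^ (b + 1)) y), fun i => ?_, ?_⟩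
  · refine (M _).sub_mem ?_ (hact' i b _ hy1)
    have := hz i
    rwa [← add_assoc] at this
  · have h5 : X 0 ^ (δ + b + 1) = f * X 0 ^ (b + 1) - (∑ i, X (Fin.succ i) * q i) * X 0 ^ (b + 1) := by
      rw [← hfq]; ring
    have h6 : x - ∑ i, (low ι) (X i) (z i - ι (q i) (ι (X 0 ^ (b + 1)) y))
        = ι f (ι (X 0 ^ (b + 1)) y) := by
      rw [h, h5, map_sub, map_mul, LinearMap.sub_apply, Module.End.mul_apply, Finset.sum_mul,
        map_sum, LinearMap.sum_apply]
      simp_rw [hlow, map_sub, Finset.sum_sub_distrib, map_mul, Module.End.mul_apply]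
      abel
    rw [h6]
    have h7 := hf _ _ hy1
    have h8 : D + b + 1 + δ = D + δ + b + 1 := by ring
    rwa [h8] at h7

end Pool.Agent.Helper80.KPA
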