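import Pool.Agent.Helper5.KPA.StT
import Pool.Agent.Helper80.KP.M_WPS

/-!
# Project KP (MP_26be5b_ag), chapter T, module TAF: area formula with fibre sums
-/

set_option autoImplicit false

namespace Pool.Agent.Helper80.KPA

open MeasureTheory Filter Metric Set Function
open scoped ContDiff ComplexOrder Topology NNReal ENNReal
open Pool.Agent.Helper5.KPA Pool.Agent.Helper52.KP Pool.Agent.Helper80.KP MvPolynomial

/-- the derivative of a polynomial map has the Jacobian as determinant -/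
theorem taf_jac {m : ℕ} (P : Fin m → MvPolynomial (Fin m) ℂ) (z : Fin m → ℂ) :
    ∃ A : (Fin m → ℂ) →L[ℂ] (Fin m → ℂ),
      HasFDerivAt (evm P) A z ∧ A.det = ev (jac P) z := by
  refine ⟨ContinuousLinearMap.pi fun i => dP (P i) z, ?_, ?_⟩
  · rw [hasFDerivAt_pi]
    intro i
    exact hasF_ev (P i) z
  · have h1 : ((ContinuousLinearMap.pi fun i => dP (P i) z :
        (Fin m → ℂ) →L[ℂ] (Fin m → ℂ)) : (Fin m → ℂ) →ₗ[ℂ] (Fin m → ℂ)) =
        Matrix.toLin' (Matrix.of fun i k => ev (MvPolynomial.pderiv k (P i)) z) := by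
      ext k i
      simp [dP_apply, Pi.single_apply]
    rw [ContinuousLinearMap.det, h1, LinearMap.det_toLin']
    unfold jac
    rw [show (ev (Matrix.of fun i j => MvPolynomial.pderiv j (P i)).det z) =
      (MvPolynomial.eval z) (Matrix.of fun i j => MvPolynomial.pderiv j (P i)).det from rfl,
      RingHom.map_det]
    congr 1

theorem taf_rad {m : ℕ} (f : (Fin m → ℂ) → (Fin m → ℂ))
    (A : (Fin m → ℂ) →L[ℝ] (Fin m → ℂ)) :
    ∃ r : ℝ≥0, r ≠ 0 ∧ (A.det ≠ 0 → ∀ s, ApproximatesLinearOn f A s r → InjOn f s) := by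
  by_cases h : A.det = 0
  · exact ⟨1, one_ne_zero, fun h' => absurd h h'⟩
  set e := A.toContinuousLinearEquivOfDetNeZero h with he
  have hA : (e : (Fin m → ℂ) →L[ℝ] (Fin m → ℂ)) = A :=
    ContinuousLinearMap.coe_toContinuousLinearEquivOfDetNeZero _ _
  rcases subsingleton_or_nontrivial (Fin m → ℂ) with hs | hs
  · exact ⟨1, one_ne_zero, fun _ s _ => injOn_of_subsingleton _ _⟩
  have hN : 0 < ‖(e.symm : (Fin m → ℂ) →L[ℝ] (Fin m → ℂ))‖₊⁻¹ :=
    inv_pos.2 e.nnnorm_symm_pos
  refine ⟨‖(e.symm : (Fin m → ℂ) →L[ℝ] (Fin m → ℂ))‖₊⁻¹ / 2, (half_pos hN).ne', fun _ s hs => ?_⟩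
  rw [← hA] at hs
  exact hs.injOn (Or.inr (half_lt_self hN))

theorem taf_det {m : ℕ} (L : (Fin m → ℂ) →L[ℂ] (Fin m → ℂ)) :
    |(L.restrictScalars ℝ).det| = ‖L.det‖ ^ 2 := by
  have : (L.restrictScalars ℝ).det = Complex.normSq L.det := by
    rw [← Algebra.norm_complex_apply]
    exact LinearMap.det_restrictScalars
  rw [this, Complex.normSq_eq_norm_sq, abs_of_nonneg (by positivity)]

theorem hTAF : StTAF := by
  intro m a ψ hψ S hS
  choose A hA hAd using taf_jac a
  set f : (Fin m → ℂ) → (Fin m → ℂ) := evm a with hf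
  set D : (Fin m → ℂ) → ℂ := fun z => ev (jac a) z with hD
  have hDc : Continuous D := MvPolynomial.continuous_eval (jac a)
  have hfc : Continuous f := continuous_pi fun i => MvPolynomial.continuous_eval (a i)
  set S' : Set (Fin m → ℂ) := {z | D z ≠ 0} with hS'def
  have hS' : MeasurableSet S' := (hDc.measurable (measurableSet_singleton 0)).compl
  set f' : (Fin m → ℂ) → (Fin m → ℂ) →L[ℝ] (Fin m → ℂ) :=
    fun z => (A z).restrictScalars ℝ with hf'def
  have hf' : ∀ x, HasFDerivAt f (f' x) x := fun x => (hA x).restrictScalars ℝ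
  have hdet : ∀ x, |(f' x).det| = ‖D x‖ ^ 2 := fun x => by
    rw [hf'def, taf_det, hAd]
  choose r hr0 hr using taf_rad f
  obtain ⟨t, B, htd, htm, hcov, happ, hne⟩ :=
    exists_partition_approximatesLinearOn_of_hasFDerivWithinAt f S' f'
      (fun x _ => (hf' x).hasFDerivWithinAt) r hr0
  set W : ℕ → Set (Fin m → ℂ) := fun i => S' ∩ t i with hW
  have hinj : ∀ i, InjOn f (W i) := by
    intro i
    rcases S'.eq_empty_or_nonempty with h0 | h0
    · rw [hW]; simp only; rw [h0, empty_inter]; exact injOn_empty _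
    obtain ⟨y, hy, hAy⟩ := hne h0 i
    refine hr (B i) ?_ _ (happ i)
    rw [hAy]
    intro hcon
    have h1 := hdet y
    rw [hcon, abs_zero] at h1
    exact hy (by simpa using h1.symm)
  have hWm : ∀ i, MeasurableSet (W i) := fun i => hS'.inter (htm i)
  have hdisj : Pairwise (Disjoint on W) := fun i j hij =>
    (htd hij).mono inter_subset_right inter_subset_right
  have himg : ∀ i (T : Set (Fin m → ℂ)), MeasurableSet T → MeasurableSet (f '' (W i ∩ T)) :=
    fun i T hT => measurable_image_of_fderivWithin ((hWm i).inter hT)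
      (fun x _ => (hf' x).hasFDerivWithinAt) ((hinj i).mono inter_subset_left)
  set h : ℕ → (Fin m → ℂ) → ℝ≥0∞ := fun i =>
    (f '' W i).indicator (fun v => ψ (invFunOn f (W i) v)) with hh
  have hhf : ∀ i, ∀ z ∈ W i, h i (f z) = ψ z := by
    intro i z hz
    rw [hh]
    simp only
    rw [indicator_of_mem (mem_image_of_mem f hz)]
    congr 1
    exact (hinj i).leftInvOn_invFunOn hz
  have hhm : ∀ i, Measurable (h i) := by
    intro i
    apply measurable_of_Ioi
    intro c
    have : h i ⁻¹' Ioi c = f '' (W i ∩ {z | c < ψ z}) := by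
      ext v
      constructor
      · intro hv
        have hv' : c < h i v := hv
        by_cases hvi : v ∈ f '' W i
        · obtain ⟨z, hz, rfl⟩ := hvi
          rw [hhf i z hz] at hv'
          exact ⟨z, ⟨hz, hv'⟩, rfl⟩
        · exfalso
          rw [hh] at hv'
          simp only at hv'
          rw [indicator_of_notMem hvi] at hv'
          exact not_lt_bot hv'
      · rintro ⟨z, ⟨hz, hcz⟩, rfl⟩
        change c < h i (f z)
        rw [hhf i z hz]
        exact hcz
    rw [this]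
    exact himg i _ (measurableSet_lt measurable_const hψ)
  -- the fibre sum
  have hsum : ∀ v, (∑' ζ : {ζ : Fin m → ℂ // evm a ζ = v ∧ ev (jac a) ζ ≠ 0}, ψ ζ.1)
      ≤ ∑' i, h i v := by
    intro v
    have hex : ∀ ζ : {ζ : Fin m → ℂ // evm a ζ = v ∧ ev (jac a) ζ ≠ 0}, ∃ i, ζ.1 ∈ W i := by
      intro ζ
      have h1 : ζ.1 ∈ S' := ζ.2.2
      obtain ⟨i, hi⟩ := mem_iUnion.1 (hcov h1)
      exact ⟨i, h1, hi⟩
    choose idx hidx using hex
    have hidxinj : Injective idx := by
      intro ζ ζ' he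
      apply Subtype.ext
      apply hinj (idx ζ) (hidx ζ)
      · rw [he]; exact hidx ζ'
      · exact ζ.2.1.trans ζ'.2.1.symm
    calc (∑' ζ : {ζ : Fin m → ℂ // evm a ζ = v ∧ ev (jac a) ζ ≠ 0}, ψ ζ.1)
        = ∑' ζ : {ζ : Fin m → ℂ // evm a ζ = v ∧ ev (jac a) ζ ≠ 0}, h (idx ζ) v := by
          congr 1
          funext ζ
          have h1 := hhf (idx ζ) ζ.1 (hidx ζ)
          rw [← h1]
          congr 1
          exact ζ.2.1
      _ ≤ ∑' i, h i v := ENNReal.tsum_comp_le_tsum_of_injective hidxinj (fun i => h i v)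
  have hpre : MeasurableSet (f ⁻¹' S) := hfc.measurable hS
  have hpiece : ∀ i, ∫⁻ v in S, h i v =
      ∫⁻ ζ in W i ∩ f ⁻¹' S, ψ ζ * ENNReal.ofReal (‖D ζ‖ ^ 2) := by
    intro i
    have h1 : ∫⁻ v in S, h i v = ∫⁻ v in f '' (W i ∩ f ⁻¹' S), h i v := by
      rw [← lintegral_indicator hS, ← lintegral_indicator (himg i _ hpre)]
      congr 1
      funext v
      by_cases hv : v ∈ f '' (W i ∩ f ⁻¹' S)
      · rw [indicator_of_mem hv]
        obtain ⟨z, hz, rfl⟩ := hv
        rw [indicator_of_mem (show f z ∈ S from hz.2)]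
      · rw [indicator_of_notMem hv]
        by_cases hvS : v ∈ S
        · rw [indicator_of_mem hvS, hh]
          simp only
          rw [indicator_of_notMem]
          rintro ⟨z, hz, rfl⟩
          exact hv ⟨z, ⟨hz, hvS⟩, rfl⟩
        · rw [indicator_of_notMem hvS]
    rw [h1, lintegral_image_eq_lintegral_abs_det_fderiv_mul volume ((hWm i).inter hpre)
      (fun x _ => (hf' x).hasFDerivWithinAt) ((hinj i).mono inter_subset_left)]
    apply setLIntegral_congr_fun ((hWm i).inter hpre)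
    intro z hz
    simp only
    rw [hdet, hhf i z hz.1, mul_comm]
  calc ∫⁻ v in S, (∑' ζ : {ζ : Fin m → ℂ // evm a ζ = v ∧ ev (jac a) ζ ≠ 0}, ψ ζ.1)
      ≤ ∫⁻ v in S, ∑' i, h i v := lintegral_mono fun v => hsum v
    _ = ∑' i, ∫⁻ v in S, h i v := lintegral_tsum fun i => (hhm i).aemeasurable
    _ = ∑' i, ∫⁻ ζ in W i ∩ f ⁻¹' S, ψ ζ * ENNReal.ofReal (‖D ζ‖ ^ 2) := by
        congr 1
        funext i
        exact hpiece i
    _ = ∫⁻ ζ in ⋃ i, W i ∩ f ⁻¹' S, ψ ζ * ENNReal.ofReal (‖D ζ‖ ^ 2) :=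
        (lintegral_iUnion (fun i => (hWm i).inter hpre) (fun i j hij =>
          (hdisj hij).mono inter_subset_left inter_subset_left) _).symm
    _ ≤ ∫⁻ ζ in {ζ | evm a ζ ∈ S}, ψ ζ * ENNReal.ofReal (‖ev (jac a) ζ‖ ^ 2) := by
        apply lintegral_mono_set
        intro z hz
        obtain ⟨i, hi⟩ := mem_iUnion.1 hz
        exact hi.2

end Pool.Agent.Helper80.KPA
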